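import Pool.Agent.Helper89.UB.Stmts

set_option autoImplicit false

open Finset

namespace Pool.Agent.Helper89.UB

theorem amg_sum {n m : ℕ} (E : Finset (Finset (Fin n))) (c : Fin m → Finset (Fin n))
    (hc : c ∈ OP E univ m) : ∑ i, (c i).card = n := by
  classical
  unfold OP at hc
  obtain ⟨-, h1, h2, h3, -⟩ := mem_filter.1 hc
  have h4 := card_biUnion (s := (univ : Finset (Fin m))) (t := c) (fun i _ j _ hij => h2 i j hij)
  rw [← h4]
  have h5 : (univ : Finset (Fin m)).biUnion c = univ := by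
    ext v
    simp only [mem_biUnion, mem_univ, true_and, iff_true]
    exact (h3 v).1 (mem_univ v)
  rw [h5, card_univ, Fintype.card_fin]

theorem amg_ne {n m : ℕ} (E : Finset (Finset (Fin n))) (c : Fin m → Finset (Fin n))
    (hc : c ∈ OP E univ m) (i : Fin m) : 1 ≤ (c i).card := by
  classical
  unfold OP at hc
  obtain ⟨-, h1, -, -, -⟩ := mem_filter.1 hc
  exact card_pos.2 (h1 i)

theorem st_AMG : ST_AMG := by
  intro n m E c hm hmn hc
  have hsum := amg_sum E c hc
  have hprod : ∏ i, (2 : ℝ) ^ (c i).card = 2 ^ n := by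
    rw [prod_pow_eq_pow_sum, hsum]
  have hm0 : (0 : ℝ) < (m : ℝ) := by exact_mod_cast hm
  have h1 := Real.geom_mean_le_arith_mean (univ : Finset (Fin m)) (fun _ => (1 : ℝ))
    (fun i => (2 : ℝ) ^ (c i).card) (fun _ _ => zero_le_one) (by simp; omega)
    (fun i _ => by positivity)
  simp only [Real.rpow_one, one_mul, sum_const, card_univ, Fintype.card_fin, nsmul_eq_mul,
    mul_one] at h1
  rw [hprod] at h1
  have h2 : ((m : ℝ) + 3) ≤ ((2 : ℝ) ^ n) ^ ((m : ℝ)⁻¹) := by
    have h3 : (((m : ℝ) + 3) ^ m) ^ ((m : ℝ)⁻¹) = (m : ℝ) + 3 :=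
      Real.pow_rpow_inv_natCast (by positivity) (by omega)
    rw [← h3]
    apply Real.rpow_le_rpow (by positivity) _ (by positivity)
    exact_mod_cast hmn
  have h4 := h2.trans h1
  rw [le_div_iff₀ hm0] at h4
  have h5 : (m + 3) * m ≤ ∑ i, 2 ^ (c i).card := by exact_mod_cast h4
  have h6 : ∑ i, (2 ^ (c i).card - 2) + 2 * m = ∑ i, 2 ^ (c i).card := by
    have h7 : ∑ i : Fin m, 2 = 2 * m := by
      rw [sum_const, card_univ, Fintype.card_fin, smul_eq_mul, mul_comm]
    rw [← h7, ← sum_add_distrib]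
    apply sum_congr rfl
    intro i _
    apply Nat.sub_add_cancel
    calc 2 = 2 ^ 1 := by norm_num
      _ ≤ 2 ^ (c i).card := Nat.pow_le_pow_right (by norm_num) (amg_ne E c hc i)
  nlinarith

end Pool.Agent.Helper89.UB
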