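import Pool.Agent.Helper89.UB.Stmts

set_option autoImplicit false

open Finset

namespace Pool.Agent.Helper89.UB

open scoped Classical in
theorem big_cover {n m : ℕ} (E : Finset (Finset (Fin n))) (r : ℕ) :
    (OP E univ m).filter (fun c => ∃ i, r ≤ (c i).card) ⊆
      (powersetCard r (univ : Finset (Fin n))).biUnion
        (fun U => (OP E univ m).filter (fun c => ∃ i, U ⊆ c i)) := by
  intro c hc
  obtain ⟨h1, i, hi⟩ := mem_filter.1 hc
  obtain ⟨U, hU, hUc⟩ := exists_subset_card_eq hi
  rw [mem_biUnion]
  exact ⟨U, mem_powersetCard.2 ⟨subset_univ _, hUc⟩, mem_filter.2 ⟨h1, i, hU⟩⟩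

theorem st_BIG (hSUB : ST_SUB) : ST_BIG := by
  classical
  intro n D m r E hE hr
  have h1 := (card_le_card (big_cover (m := m) E r)).trans card_biUnion_le
  calc (m - D) ^ (r - 1) * ((OP E univ m).filter (fun c => ∃ i, r ≤ (c i).card)).card
      ≤ (m - D) ^ (r - 1) * ∑ U ∈ powersetCard r (univ : Finset (Fin n)),
          ((OP E univ m).filter (fun c => ∃ i, U ⊆ c i)).card := Nat.mul_le_mul_left _ h1
    _ = ∑ U ∈ powersetCard r (univ : Finset (Fin n)),
          (m - D) ^ (r - 1) * ((OP E univ m).filter (fun c => ∃ i, U ⊆ c i)).card := by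
        rw [mul_sum]
    _ ≤ ∑ U ∈ powersetCard r (univ : Finset (Fin n)), sur E univ m := by
        apply sum_le_sum
        intro U hU
        obtain ⟨-, h2⟩ := mem_powersetCard.1 hU
        have h3 := hSUB n D m E hE U (card_pos.1 (by omega))
        rw [h2] at h3
        exact h3
    _ = n.choose r * sur E univ m := by
        rw [sum_const, card_powersetCard, card_univ, Fintype.card_fin, smul_eq_mul]

end Pool.Agent.Helper89.UB
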